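import Mathlib

namespace Pool.Agent.Helper53_Miya

open Finset

/-- pairs `0 < g < f ≤ n` of opposite parity -/
def opp (n : ℕ) : Finset (ℕ × ℕ) :=
  ((range (n + 1)) ×ˢ (range (n + 1))).filter (fun q => 0 < q.2 ∧ q.2 < q.1 ∧ Odd (q.1 + q.2))

/-- coprime pairs `0 < g < f ≤ n` of opposite parity -/
def pairs (n : ℕ) : Finset (ℕ × ℕ) :=
  ((range (n + 1)) ×ˢ (range (n + 1))).filter
    (fun q => 0 < q.2 ∧ q.2 < q.1 ∧ Nat.Coprime q.1 q.2 ∧ Odd (q.1 + q.2))

lemma mem_opp {n : ℕ} {q : ℕ × ℕ} :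
    q ∈ opp n ↔ 0 < q.2 ∧ q.2 < q.1 ∧ q.1 ≤ n ∧ Odd (q.1 + q.2) := by
  unfold opp
  simp only [mem_filter, mem_product, mem_range]
  constructor
  · rintro ⟨⟨h1, h2⟩, h3, h4, h5⟩; exact ⟨h3, h4, by omega, h5⟩
  · rintro ⟨h3, h4, h1, h5⟩; exact ⟨⟨by omega, by omega⟩, h3, h4, h5⟩

lemma mem_pairs {n : ℕ} {q : ℕ × ℕ} :
    q ∈ pairs n ↔ 0 < q.2 ∧ q.2 < q.1 ∧ q.1 ≤ n ∧ Nat.Coprime q.1 q.2 ∧ Odd (q.1 + q.2) := by
  unfold pairs
  simp only [mem_filter, mem_product, mem_range]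
  constructor
  · rintro ⟨⟨h1, h2⟩, h3, h4, h5, h6⟩; exact ⟨h3, h4, by omega, h5, h6⟩
  · rintro ⟨h3, h4, h1, h5, h6⟩; exact ⟨⟨by omega, by omega⟩, h3, h4, h5, h6⟩

lemma card_opp (n : ℕ) : (opp n).card = n ^ 2 / 4 := by
  have h1 : (opp n).card = ∑ f ∈ range (n + 1), f / 2 := by
    have : opp n = (range (n + 1)).biUnion
        (fun f => (range (f / 2)).image (fun k => (f, f - 1 - 2 * k))) := by
      ext ⟨f, g⟩
      rw [mem_opp]
      simp only [mem_biUnion, mem_range, mem_image, Prod.mk.injEq]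
      constructor
      · rintro ⟨h1, h2, h3, h4⟩
        obtain ⟨m, hm⟩ := h4
        refine ⟨f, by omega, (f - 1 - g) / 2, by omega, rfl, by omega⟩
      · rintro ⟨f', h1, k, h2, rfl, rfl⟩
        refine ⟨by omega, by omega, by omega, ?_⟩
        rw [Nat.odd_iff]; omega
    rw [this, card_biUnion]
    · apply sum_congr rfl
      intro f hf
      rw [card_image_of_injOn]
      · simp
      · intro a ha b hb hab
        simp only [coe_range, Set.mem_Iio, Prod.mk.injEq] at ha hb hab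
        omega
    · intro a _ b _ hab
      rw [Function.onFun, disjoint_left]
      rintro ⟨u, v⟩ h1 h2
      simp only [mem_image, mem_range, Prod.mk.injEq] at h1 h2
      obtain ⟨_, _, h3, _⟩ := h1
      obtain ⟨_, _, h4, _⟩ := h2
      exact hab (h3.trans h4.symm)
  rw [h1]
  clear h1
  induction n with
  | zero => simp
  | succ n ih =>
    rw [sum_range_succ, ih]
    obtain ⟨k, hk | hk⟩ : ∃ k, n = 2 * k ∨ n = 2 * k + 1 := ⟨n / 2, by omega⟩
    · subst hk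
      have e1 : (2 * k) ^ 2 / 4 = k ^ 2 := by
        rw [show (2 * k) ^ 2 = 4 * k ^ 2 by ring]; omega
      have e2 : (2 * k + 1) ^ 2 / 4 = k ^ 2 + k := by
        rw [show (2 * k + 1) ^ 2 = 4 * (k ^ 2 + k) + 1 by ring]; omega
      rw [e1, e2]; omega
    · subst hk
      have e1 : (2 * k + 1) ^ 2 / 4 = k ^ 2 + k := by
        rw [show (2 * k + 1) ^ 2 = 4 * (k ^ 2 + k) + 1 by ring]; omega
      have e2 : (2 * k + 1 + 1) ^ 2 / 4 = k ^ 2 + 2 * k + 1 := by
        rw [show (2 * k + 1 + 1) ^ 2 = 4 * (k ^ 2 + 2 * k + 1) by ring]; omega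
      rw [e1, e2]; omega

lemma sum_odd_sq (K : ℕ) : ∑ k ∈ Icc 1 K, (1 : ℝ) / (2 * (k : ℝ) + 1) ^ 2 ≤
    1 / 4 * (1 - 1 / ((K : ℝ) + 1)) := by
  induction K with
  | zero => simp
  | succ K ih =>
    rw [sum_Icc_succ_top (by omega)]
    refine (add_le_add_left ih _).trans ?_
    push_cast
    have h1 : (0 : ℝ) < K + 1 := by positivity
    have h2 : (0 : ℝ) < K + 1 + 1 := by positivity
    have h3 : (1 : ℝ) / (2 * (K + 1) + 1) ^ 2 ≤ 1 / 4 * (1 / (K + 1) - 1 / (K + 1 + 1)) := by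
      rw [div_sub_div _ _ h1.ne' h2.ne', ← mul_div_assoc, div_le_div_iff₀ (by positivity) (by positivity)]
      nlinarith
    linarith

lemma card_pairs (n : ℕ) : (n : ℝ) ^ 2 * (3 / 16) - 1 ≤ (pairs n).card := by
  -- non-coprime pairs
  have hsub : opp n ⊆ pairs n ∪ (Icc 1 n).biUnion
      (fun k => (opp (n / (2 * k + 1))).image (fun q => ((2 * k + 1) * q.1, (2 * k + 1) * q.2))) := by
    rintro ⟨f, g⟩ hq
    rw [mem_opp] at hq
    obtain ⟨h1, h2, h3, h4⟩ := hq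
    simp only at h1 h2 h3 h4
    rw [mem_union, mem_pairs]
    by_cases hc : Nat.Coprime f g
    · exact Or.inl ⟨h1, h2, h3, hc, h4⟩
    · right
      obtain ⟨d, hd⟩ : ∃ d, d = Nat.gcd f g := ⟨_, rfl⟩
      have hdf : d ∣ f := hd ▸ Nat.gcd_dvd_left f g
      have hdg : d ∣ g := hd ▸ Nat.gcd_dvd_right f g
      obtain ⟨a, ha⟩ := hdf
      obtain ⟨b, hb⟩ := hdg
      have hdpos : 0 < d := by
        rcases Nat.eq_zero_or_pos d with h0 | h0
        · rw [h0, zero_mul] at hb; omega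
        · exact h0
      have hd1 : d ≠ 1 := fun h => hc (by rw [Nat.Coprime, ← hd, h])
      have hdodd : Odd d := by
        have : Odd (d * (a + b)) := by rw [mul_add, ← ha, ← hb]; exact h4
        exact (Nat.odd_mul.mp this).1
      obtain ⟨k, hk⟩ := hdodd
      have hab : Odd (a + b) := by
        have : Odd (d * (a + b)) := by rw [mul_add, ← ha, ← hb]; exact h4
        exact (Nat.odd_mul.mp this).2
      have hapos : 0 < a := by
        rcases Nat.eq_zero_or_pos a with h0 | h0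
        · rw [h0, mul_zero] at ha; omega
        · exact h0
      have hbpos : 0 < b := by
        rcases Nat.eq_zero_or_pos b with h0 | h0
        · rw [h0, mul_zero] at hb; omega
        · exact h0
      have hba : b < a := by
        rw [ha, hb] at h2
        exact lt_of_mul_lt_mul_left h2 hdpos.le
      have hdn : d ≤ n := by
        calc d = d * 1 := (mul_one d).symm
          _ ≤ d * a := Nat.mul_le_mul_left d hapos
          _ ≤ n := by rw [← ha]; exact h3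
      rw [mem_biUnion]
      refine ⟨k, by rw [mem_Icc]; omega, ?_⟩
      rw [mem_image]
      refine ⟨(a, b), ?_, by rw [← hk, ha, hb]⟩
      rw [mem_opp]
      refine ⟨hbpos, hba, ?_, hab⟩
      rw [← hk]
      show a ≤ n / d
      rw [Nat.le_div_iff_mul_le hdpos, mul_comm, ← ha]
      exact h3
  have hcard := (card_le_card hsub).trans (card_union_le _ _)
  have hb : ((Icc 1 n).biUnion
      (fun k => (opp (n / (2 * k + 1))).image (fun q => ((2 * k + 1) * q.1, (2 * k + 1) * q.2)))).card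
      ≤ ∑ k ∈ Icc 1 n, (n / (2 * k + 1)) ^ 2 / 4 := by
    refine card_biUnion_le.trans (sum_le_sum fun k _ => ?_)
    rw [← card_opp]
    exact card_image_le
  have hb2 : ((∑ k ∈ Icc 1 n, (n / (2 * k + 1)) ^ 2 / 4 : ℕ) : ℝ) ≤ (n : ℝ) ^ 2 / 4 * (1 / 4) := by
    push_cast
    have h1 : ∀ k ∈ Icc 1 n, (((n / (2 * k + 1)) ^ 2 / 4 : ℕ) : ℝ) ≤ (n : ℝ) ^ 2 / 4 * (1 / (2 * k + 1) ^ 2) := by
      intro k _
      have h2 : (((n / (2 * k + 1)) ^ 2 / 4 : ℕ) : ℝ) ≤ (((n / (2 * k + 1)) ^ 2 : ℕ) : ℝ) / 4 := by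
        exact_mod_cast Nat.cast_div_le
      have h3 : (((n / (2 * k + 1) : ℕ)) : ℝ) ≤ (n : ℝ) / (2 * k + 1) := by
        have := @Nat.cast_div_le ℝ _ _ _ n (2 * k + 1)
        push_cast at this
        exact this
      calc (((n / (2 * k + 1)) ^ 2 / 4 : ℕ) : ℝ) ≤ (((n / (2 * k + 1)) ^ 2 : ℕ) : ℝ) / 4 := h2
        _ = ((n / (2 * k + 1) : ℕ) : ℝ) ^ 2 / 4 := by push_cast; ring
        _ ≤ ((n : ℝ) / (2 * k + 1)) ^ 2 / 4 := by gcongr
        _ = (n : ℝ) ^ 2 / 4 * (1 / (2 * k + 1) ^ 2) := by field_simp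
    have h4 := sum_le_sum h1
    rw [← mul_sum] at h4
    have h5 := sum_odd_sq n
    have h6 : (1 : ℝ) / 4 * (1 - 1 / (n + 1)) ≤ 1 / 4 := by
      have : (0 : ℝ) ≤ 1 / (n + 1) := by positivity
      linarith
    refine le_trans ?_ (h4.trans (mul_le_mul_of_nonneg_left (h5.trans h6) (by positivity)))
    push_cast
    exact le_rfl
  have h1 : ((opp n).card : ℝ) ≥ (n : ℝ) ^ 2 / 4 - 1 := by
    rw [card_opp]
    have : n ^ 2 < 4 * (n ^ 2 / 4) + 4 := by omega
    have h2 : ((n ^ 2 : ℕ) : ℝ) < ((4 * (n ^ 2 / 4) + 4 : ℕ) : ℝ) := by exact_mod_cast this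
    push_cast at h2
    push_cast
    linarith
  have h2 : ((opp n).card : ℝ) ≤ (pairs n).card + (∑ k ∈ Icc 1 n, (n / (2 * k + 1)) ^ 2 / 4 : ℕ) := by
    exact_mod_cast hcard.trans (Nat.add_le_add_left hb _)
  linarith

end Pool.Agent.Helper53_Miya
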