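import Mathlib
import Pool.Agent.Common_PNT.PNT

namespace Pool.Agent.Helper53_Miya

open Classical in
/-- number of positive `m < n` without prime factor `≡ a (mod q)` -/
noncomputable def E (q a n : ℕ) : Finset ℕ :=
  (Finset.range n).filter (fun m => 0 < m ∧ ∀ p, p.Prime → p % q = a % q → ¬ p ∣ m)

open Finset Filter Topology ArithmeticFunction ArithmeticFunction.vonMangoldt
open scoped Chebyshev

/-- partial sums of reciprocals of the primes `≡ a (mod q)` -/
noncomputable def S (q a : ℕ) (n : ℕ) : ℝ :=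
  ∑ k ∈ Icc 1 n, if k.Prime ∧ k % q = a % q then (1 : ℝ) / k else 0

/-- For large `x`, the primes `≡ a (mod q)` in `(x, 2x]` have large reciprocal sum. -/
lemma block {q a : ℕ} (hq : 0 < q) (ha : Nat.Coprime a q) :
    ∃ c : ℝ, 0 < c ∧ ∀ᶠ k : ℕ in atTop, c / (k + 1) ≤ S q a (2 ^ (k + 1)) - S q a (2 ^ k) := by
  have : NeZero q := ⟨hq.ne'⟩
  have hu : IsUnit (a : ZMod q) := (ZMod.isUnit_iff_coprime a q).mpr ha
  obtain ⟨φ, hφ⟩ : ∃ φ : ℝ, φ = ((q.totient : ℝ)⁻¹) := ⟨_, rfl⟩
  have hφpos : 0 < φ := by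
    rw [hφ]; have := Nat.totient_pos.mpr hq; positivity
  have hψ := Pool.Agent.Common_PNT.tendsto_psi_residueClass (q := q) (a := (a : ZMod q)) hu
  rw [← hφ] at hψ
  -- along powers of two
  have hpow : Tendsto (fun k : ℕ => (2 : ℝ) ^ k) atTop atTop :=
    tendsto_pow_atTop_atTop_of_one_lt (by norm_num)
  have h1 := hψ.comp hpow
  have h2 := hψ.comp (hpow.comp (tendsto_add_atTop_nat 1))
  obtain ⟨R, hR⟩ : ∃ R : ℕ → ℝ, R = fun k => ∑ j ∈ Finset.Icc 1 (2 ^ k), residueClass (a : ZMod q) j :=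
    ⟨_, rfl⟩
  have hfl : ∀ k : ℕ, ⌊(2 : ℝ) ^ k⌋₊ = 2 ^ k := by
    intro k
    have : ((2 ^ k : ℕ) : ℝ) = (2 : ℝ) ^ k := by push_cast; rfl
    rw [← this, Nat.floor_natCast]
  have h1' : Tendsto (fun k : ℕ => R k / 2 ^ k) atTop (𝓝 φ) := by
    refine h1.congr fun k => ?_
    simp only [Function.comp, hR, hfl]
  have h2' : Tendsto (fun k : ℕ => R (k + 1) / 2 ^ (k + 1)) atTop (𝓝 φ) :=
    h1'.comp (tendsto_add_atTop_nat 1)
  have h3 : Tendsto (fun k : ℕ => (R (k + 1) - R k) / 2 ^ k) atTop (𝓝 φ) := by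
    have := (h2'.const_mul 2).sub h1'
    rw [show 2 * φ - φ = φ by ring] at this
    refine this.congr fun k => ?_
    rw [pow_succ]
    field_simp
  -- prime powers are negligible
  have h4 : Tendsto (fun k : ℕ => (4 * √((2:ℝ) ^ (k + 1)) * Real.log (2 ^ (k + 1))) / 2 ^ (k+1))
      atTop (𝓝 0) := by
    have e : Tendsto (fun x : ℝ => 4 * (Real.log x / x ^ ((1:ℝ)/2))) atTop (𝓝 0) := by
      have := (isLittleO_log_rpow_atTop (r := (1:ℝ)/2) (by norm_num)).tendsto_div_nhds_zero
      simpa using this.const_mul 4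
    have e2 := e.comp (hpow.comp (tendsto_add_atTop_nat 1))
    refine e2.congr fun k => ?_
    simp only [Function.comp]
    rw [← Real.sqrt_eq_rpow]
    have hpos : (0 : ℝ) < 2 ^ (k + 1) := by positivity
    have hs : 0 < √((2:ℝ) ^ (k + 1)) := Real.sqrt_pos.mpr hpos
    have hs2 : √((2:ℝ) ^ (k + 1)) * √((2:ℝ) ^ (k + 1)) = 2 ^ (k + 1) := Real.mul_self_sqrt hpos.le
    rw [mul_div_assoc', div_eq_div_iff hs.ne' hpos.ne']
    linear_combination (- 4 * Real.log (2 ^ (k+1))) * hs2
  refine ⟨φ / (8 * Real.log 2), by have := Real.log_pos (by norm_num : (1:ℝ) < 2); positivity, ?_⟩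
  have hlog2 := Real.log_pos (by norm_num : (1:ℝ) < 2)
  filter_upwards [h3.eventually (lt_mem_nhds (show φ * (3/4) < φ by linarith)),
    h4.eventually (gt_mem_nhds (show (0:ℝ) < φ / 4 by linarith)), eventually_ge_atTop 1] with k k1 k2 hk
  -- lower bound for the sum of logs over primes
  have hpos : (0 : ℝ) < 2 ^ k := by positivity
  have hpos' : (0 : ℝ) < 2 ^ (k + 1) := by positivity
  rw [lt_div_iff₀ hpos] at k1
  rw [div_lt_iff₀ hpos'] at k2
  -- split residue sums
  have hle : (2 : ℕ) ^ k ≤ 2 ^ (k + 1) := Nat.pow_le_pow_right (by norm_num) (by omega)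
  have hsplit : ∀ F : ℕ → ℝ, ∑ j ∈ Icc 1 (2 ^ (k + 1)), F j - ∑ j ∈ Icc 1 (2 ^ k), F j
      = ∑ j ∈ Ioc (2 ^ k) (2 ^ (k + 1)), F j := by
    intro F
    have hdis : Disjoint (Icc 1 (2 ^ k)) (Ioc (2 ^ k) (2 ^ (k + 1))) := by
      rw [disjoint_left]; intro j h1 h2
      rw [mem_Icc] at h1; rw [mem_Ioc] at h2; omega
    have : Icc 1 (2 ^ (k + 1)) = Icc 1 (2 ^ k) ∪ Ioc (2 ^ k) (2 ^ (k + 1)) := by
      ext j; simp only [mem_union, mem_Icc, mem_Ioc]
      have : 1 ≤ 2 ^ k := Nat.one_le_two_pow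
      omega
    rw [this, sum_union hdis]; ring
  have hRd : R (k + 1) - R k = ∑ j ∈ Ioc (2 ^ k) (2 ^ (k + 1)), residueClass (a : ZMod q) j := by
    rw [hR]; exact hsplit _
  -- compare with primes
  have hcmp : ∑ j ∈ Ioc (2 ^ k) (2 ^ (k + 1)), residueClass (a : ZMod q) j
      ≤ ∑ j ∈ Ioc (2 ^ k) (2 ^ (k + 1)), (if j.Prime ∧ j % q = a % q then Real.log j else 0)
        + (Chebyshev.psi (2 ^ (k + 1)) - Chebyshev.theta (2 ^ (k + 1))) := by
    rw [Chebyshev.psi_sub_theta_eq_sum_not_prime]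
    have e1 : ∑ j ∈ Ioc (2 ^ k) (2 ^ (k + 1)), residueClass (a : ZMod q) j
        ≤ ∑ j ∈ Ioc (2 ^ k) (2 ^ (k + 1)), ((if j.Prime ∧ j % q = a % q then Real.log j else 0)
          + (if ¬ j.Prime then ArithmeticFunction.vonMangoldt j else 0)) := by
      apply sum_le_sum
      intro j _
      by_cases hjp : j.Prime
      · by_cases hja : j % q = a % q
        · simp only [hjp, hja, and_self, if_true, not_true, if_false, add_zero]
          exact (residueClass_le _ _).trans (by rw [vonMangoldt_apply_prime hjp])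
        · simp only [hja, and_false, if_false, hjp, not_true, add_zero]
          rw [residueClass, Set.indicator_of_notMem]
          intro hmem
          apply hja
          exact (ZMod.natCast_eq_natCast_iff' _ _ _).mp hmem
      · simp only [hjp, false_and, if_false, not_false_eq_true, if_true, zero_add]
        exact residueClass_le _ _
    refine e1.trans ?_
    rw [sum_add_distrib]
    apply add_le_add le_rfl
    rw [← sum_filter]
    have hfl2 : ⌊(2 : ℝ) ^ (k + 1)⌋₊ = 2 ^ (k + 1) := hfl (k + 1)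
    rw [hfl2]
    apply sum_le_sum_of_subset_of_nonneg
    · intro j hj
      simp only [mem_filter, mem_Ioc] at hj ⊢
      exact ⟨⟨by omega, hj.1.2⟩, hj.2⟩
    · intro j _ _; exact vonMangoldt_nonneg
  have hψθ := Chebyshev.psi_sub_theta_le (x := (2:ℝ) ^ (k + 1)) (one_le_pow₀ (by norm_num))
  -- sum of logs vs sum of reciprocals
  have hrec : ∑ j ∈ Ioc (2 ^ k) (2 ^ (k + 1)), (if j.Prime ∧ j % q = a % q then Real.log j else 0)
      ≤ (2 ^ (k + 1) * ((k + 1) * Real.log 2)) * (S q a (2 ^ (k + 1)) - S q a (2 ^ k)) := by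
    unfold S
    rw [hsplit, mul_sum]
    apply sum_le_sum
    intro j hj
    rw [mem_Ioc] at hj
    split_ifs with hc
    · have hj0 : (0 : ℝ) < j := by exact_mod_cast hc.1.pos
      have hj1 : (j : ℝ) ≤ 2 ^ (k + 1) := by exact_mod_cast hj.2
      have hlj : Real.log j ≤ (k + 1) * Real.log 2 := by
        have := Real.log_le_log hj0 hj1
        rw [Real.log_pow] at this
        push_cast at this
        exact this
      rw [mul_one_div, le_div_iff₀ hj0, mul_comm]
      apply mul_le_mul hj1 hlj (Real.log_nonneg (by exact_mod_cast hc.1.one_lt.le)) hpos'.le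
    · simp
  have hlog : Real.log (2 ^ (k + 1)) = (k + 1) * Real.log 2 := by
    rw [Real.log_pow]; push_cast; ring
  have hk1 : (0 : ℝ) < (k : ℝ) + 1 := by positivity
  -- combine
  have hs0 : 0 ≤ √((2:ℝ) ^ (k + 1)) * Real.log (2 ^ (k + 1)) :=
    mul_nonneg (Real.sqrt_nonneg _) (Real.log_nonneg (one_le_pow₀ (by norm_num)))
  have hfin : φ / 4 * 2 ^ k ≤ (2 ^ (k + 1) * ((k + 1) * Real.log 2)) *
      (S q a (2 ^ (k + 1)) - S q a (2 ^ k)) := by
    have e2 : (2:ℝ) ^ (k + 1) = 2 * 2 ^ k := by ring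
    rw [hRd] at k1
    have e3 := (k1.le.trans hcmp).trans (add_le_add hrec hψθ)
    have e4 : 2 * √((2:ℝ) ^ (k + 1)) * Real.log (2 ^ (k + 1)) ≤ φ / 4 * 2 ^ k := by
      have := k2.le
      rw [e2] at this ⊢
      nlinarith
    linarith
  rw [div_div, div_le_iff₀ (by positivity)]
  have e2 : (2:ℝ) ^ (k + 1) = 2 * 2 ^ k := by ring
  rw [e2] at hfin
  have : 2 ^ k * φ ≤ 2 ^ k * ((S q a (2 ^ (k + 1)) - S q a (2 ^ k)) * (8 * Real.log 2 * (k + 1))) := by
    linarith
  exact le_of_mul_le_mul_left this hpos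

lemma S_mono (q a : ℕ) : Monotone (S q a) := by
  intro m n hmn
  unfold S
  apply sum_le_sum_of_subset_of_nonneg
  · intro j; simp only [mem_Icc]; omega
  · intro j _ _; split_ifs <;> positivity

lemma S_unbounded {q a : ℕ} (hq : 0 < q) (ha : Nat.Coprime a q) (C : ℝ) : ∃ n, C < S q a n := by
  obtain ⟨c, hc, hev⟩ := block hq ha
  obtain ⟨k0, hk0⟩ := eventually_atTop.mp hev
  by_contra hcon
  push Not at hcon
  have hsum : ∀ K, k0 ≤ K → ∑ k ∈ Ico k0 K, c / ((k : ℝ) + 1) ≤ S q a (2 ^ K) - S q a (2 ^ k0) := by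
    intro K hK
    induction K, hK using Nat.le_induction with
    | base => simp
    | succ K hK ih =>
      rw [sum_Ico_succ_top hK]
      have := hk0 K hK
      linarith
  have hbd : ∀ K, ∑ k ∈ range K, c / ((k : ℝ) + 1) ≤ ∑ k ∈ range k0, c / ((k : ℝ) + 1) + C
      - S q a (2 ^ k0) := by
    intro K
    rcases le_total k0 K with h | h
    · have h1 := hsum K h
      have h2 := hcon (2 ^ K)
      have h3 := sum_range_add_sum_Ico (fun k : ℕ => c / ((k : ℝ) + 1)) h
      linarith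
    · have h1 : ∑ k ∈ range K, c / ((k : ℝ) + 1) ≤ ∑ k ∈ range k0, c / ((k : ℝ) + 1) :=
        sum_le_sum_of_subset_of_nonneg (by simpa using h) (fun _ _ _ => by positivity)
      have h2 := hcon (2 ^ k0)
      linarith
  have hsm : Summable (fun k : ℕ => c / ((k : ℝ) + 1)) :=
    summable_of_sum_range_le (fun k => by positivity) hbd
  have h1 : Summable (fun k : ℕ => 1 / ((k : ℝ) + 1)) := by
    have := hsm.mul_left (c⁻¹)
    refine this.congr fun k => ?_
    field_simp
  have h2 : Summable (fun k : ℕ => 1 / (k : ℝ)) := by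
    rw [← summable_nat_add_iff 1]
    refine h1.congr fun k => ?_
    push_cast; rfl
  exact Real.not_summable_one_div_natCast h2

/-- Integers with no prime factor `≡ a (mod q)` have density zero. -/
lemma density_zero {q a : ℕ} (hq : 0 < q) (ha : Nat.Coprime a q) {ε : ℝ} (hε : 0 < ε) :
    ∀ᶠ n : ℕ in atTop, ((E q a n).card : ℝ) ≤ ε * n := by
  -- choose a finite set of primes
  obtain ⟨B, hB⟩ : ∃ B : ℝ, Real.exp (-B) ≤ ε / 2 := by
    refine ⟨-Real.log (ε / 2), ?_⟩
    rw [neg_neg, Real.exp_log (by positivity)]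
  obtain ⟨N, hN⟩ := S_unbounded hq ha B
  set P : Finset ℕ := (Icc 1 N).filter (fun k => k.Prime ∧ k % q = a % q) with hP
  have hPprime : ∀ p ∈ P, p.Prime := fun p hp => (mem_filter.mp hp).2.1
  set M : ℕ := ∏ p ∈ P, p with hM
  have hMpos : 0 < M := prod_pos fun p hp => (hPprime p hp).pos
  have hMfac : M.primeFactors = P := Nat.primeFactors_prod hPprime
  have hphi : (M.totient : ℝ) / M ≤ ε / 2 := by
    have h1 : (M.totient : ℝ) = M * ∏ p ∈ P, (1 - (p : ℝ)⁻¹) := by
      have := Nat.totient_eq_mul_prod_factors M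
      rw [hMfac] at this
      have h2 : ((M.totient : ℚ) : ℝ) = ((M * ∏ p ∈ P, (1 - (p : ℚ)⁻¹) : ℚ) : ℝ) := by rw [this]
      push_cast at h2
      exact h2
    rw [h1, mul_div_cancel_left₀ _ (by positivity : (M : ℝ) ≠ 0)]
    calc ∏ p ∈ P, (1 - (p : ℝ)⁻¹) ≤ ∏ p ∈ P, Real.exp (-(p : ℝ)⁻¹) := by
          apply Finset.prod_le_prod
          · intro p hp
            have : (1 : ℝ) ≤ p := by exact_mod_cast (hPprime p hp).one_lt.le
            have := inv_le_one_of_one_le₀ this
            linarith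
          · intro p _
            have := Real.add_one_le_exp (-(p : ℝ)⁻¹)
            linarith
      _ = Real.exp (-(∑ p ∈ P, (p : ℝ)⁻¹)) := by rw [← Real.exp_sum, sum_neg_distrib]
      _ ≤ Real.exp (-B) := by
          apply Real.exp_le_exp.mpr
          have : S q a N = ∑ p ∈ P, (p : ℝ)⁻¹ := by
            unfold S
            rw [← sum_filter]
            exact sum_congr rfl fun p _ => one_div _
          rw [← this]; linarith
      _ ≤ ε / 2 := hB
  have hev : ∀ᶠ n : ℕ in atTop, (M.totient : ℝ) ≤ ε / 2 * n := by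
    have : Tendsto (fun n : ℕ => ε / 2 * (n : ℝ)) atTop atTop :=
      tendsto_natCast_atTop_atTop.const_mul_atTop (by positivity)
    exact this.eventually (eventually_ge_atTop _)
  filter_upwards [hev] with n hn
  have hsub : E q a n ⊆ (Ico 0 (0 + n)).filter (fun m => M.Coprime m) := by
    intro m hm
    simp only [E, mem_filter, mem_range] at hm
    simp only [mem_filter, mem_Ico, zero_add]
    refine ⟨⟨Nat.zero_le _, hm.1⟩, ?_⟩
    rw [hM, Nat.coprime_prod_left_iff]
    intro p hp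
    have hp' := mem_filter.mp hp
    exact (Nat.Prime.coprime_iff_not_dvd hp'.2.1).mpr (hm.2.2 p hp'.2.1 hp'.2.2)
  have hcard := (card_le_card hsub).trans (Nat.Ico_filter_coprime_le 0 n hMpos.ne')
  have h1 : ((E q a n).card : ℝ) ≤ M.totient * (n / M + 1) := by
    have h2 : ((E q a n).card : ℝ) ≤ ((M.totient * (n / M + 1) : ℕ) : ℝ) := by
      exact_mod_cast hcard
    push_cast at h2
    refine h2.trans ?_
    have h3 : ((n / M : ℕ) : ℝ) ≤ (n : ℝ) / M := Nat.cast_div_le
    gcongr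
  have h2 : (M.totient : ℝ) * (n / M + 1) = (M.totient / M) * n + M.totient := by
    field_simp
  rw [h2] at h1
  have h3 : (M.totient / M : ℝ) * n ≤ ε / 2 * n := by gcongr
  linarith

end Pool.Agent.Helper53_Miya
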