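import Mathlib

namespace Pool.Agent.Helper53_Miya

/-- If `f - g` has a prime factor `p ≡ 7 (mod 8)` then the shuffled equation has no solution. -/
lemma no_sol {f g p : ℕ} (hg : g < f) (hc : Nat.Coprime f g)
    (hp : p.Prime) (hp7 : p % 8 = 7) (hd : p ∣ f - g) {x y z : ℕ} (hx : 0 < x) (hy : 0 < y)
    (hz : 0 < z) : (f ^ 2 + g ^ 2) ^ x + (2 * f * g) ^ y ≠ (f ^ 2 - g ^ 2) ^ z := by
  intro heq
  haveI : Fact p.Prime := ⟨hp⟩
  have hp2 : p ≠ 2 := by rintro rfl; omega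
  obtain ⟨s, hs⟩ := (ZMod.exists_sq_eq_two_iff hp2).mpr (Or.inr hp7)
  have hfg : (f : ZMod p) = g := by
    have : ((f - g : ℕ) : ZMod p) = 0 := (ZMod.natCast_eq_zero_iff _ _).mpr hd
    rw [Nat.cast_sub hg.le] at this
    exact sub_eq_zero.mp this
  have hf0 : (f : ZMod p) ≠ 0 := by
    intro h0
    have h1 : p ∣ f := (ZMod.natCast_eq_zero_iff _ _).mp h0
    have h2 : p ∣ g := by
      rw [hfg] at h0
      exact (ZMod.natCast_eq_zero_iff _ _).mp h0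
    have := Nat.dvd_gcd h1 h2
    rw [hc] at this
    exact hp.one_lt.ne' (Nat.dvd_one.mp this)
  have hle : g ^ 2 ≤ f ^ 2 := Nat.pow_le_pow_left hg.le 2
  have h := congrArg (fun n : ℕ => (n : ZMod p)) heq
  simp only [Nat.cast_add, Nat.cast_pow, Nat.cast_mul, Nat.cast_ofNat] at h
  rw [Nat.cast_sub hle] at h
  push_cast at h
  rw [← hfg] at h
  rw [sub_self, zero_pow hz.ne'] at h
  -- `(2 f^2)^x + (2 f^2)^y = 0`
  obtain ⟨X, hX⟩ : ∃ X : ZMod p, X = s * f := ⟨_, rfl⟩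
  have hs0 : s ≠ 0 := by
    intro h0
    rw [h0, mul_zero] at hs
    have h2 : ((2 : ℕ) : ZMod p) = 0 := by exact_mod_cast hs
    have := (ZMod.natCast_eq_zero_iff _ _).mp h2
    exact hp2 ((Nat.prime_dvd_prime_iff_eq hp Nat.prime_two).mp this)
  have hX0 : X ≠ 0 := by rw [hX]; exact mul_ne_zero hs0 hf0
  have e1 : (f : ZMod p) ^ 2 + f ^ 2 = X ^ 2 := by
    rw [hX]; linear_combination (f : ZMod p) ^ 2 * hs
  have e2 : 2 * (f : ZMod p) * f = X ^ 2 := by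
    rw [hX]; linear_combination (f : ZMod p) ^ 2 * hs
  rw [e1, e2] at h
  have h3 : (X ^ x) ^ 2 = - (X ^ y) ^ 2 := by
    have : (X ^ 2) ^ x = (X ^ x) ^ 2 := by rw [← pow_mul, ← pow_mul, mul_comm]
    have h4 : (X ^ 2) ^ y = (X ^ y) ^ 2 := by rw [← pow_mul, ← pow_mul, mul_comm]
    rw [← this, ← h4]
    linear_combination h
  have h5 : IsSquare (-1 : ZMod p) := by
    refine ⟨X ^ x / X ^ y, ?_⟩
    have hy0 : X ^ y ≠ 0 := pow_ne_zero _ hX0
    field_simp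
    linear_combination (-1 : ZMod p) * h3
  have := ZMod.exists_sq_eq_neg_one_iff.mp h5
  omega

end Pool.Agent.Helper53_Miya
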