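import Mathlib
import Pool.Agent.Helper53_Miya.Key
import Pool.Agent.Helper53_Miya.Count
import Pool.Agent.Helper53_Miya.Dens

/-!
# The shuffled Pythagorean exponential equation: the conjecture holds for almost all triples

If `f - g` has a prime factor `p ≡ 7 (mod 8)` then the equation
`(f²+g²)^x + (2fg)^y = (f²-g²)^z` has no solution in positive integers. Since the integers without
such a prime factor have density zero, the conjecture holds for a proportion tending to `1` of the
admissible pairs `(f, g)` with `f ≤ N`.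
-/

namespace Pool.Agent.Results.MP_d2d93c_nt.AlmostAll

open Filter Topology

/-- The pairs of the problem: coprime integers `f > g ≥ 1` of opposite parity. They parametrize the
primitive Pythagorean triples `(f² - g², 2fg, f² + g²)`. -/
def Admissible (f g : ℕ) : Prop := 1 ≤ g ∧ g < f ∧ Nat.Coprime f g ∧ Odd (f + g)

/-- The assertion of the conjecture for the pair `(f, g)`: every solution in positive integers
`x, y, z` of `(f²+g²)^x + (2fg)^y = (f²-g²)^z` has `f = g + 1` and `(x, y, z) = (1, 1, 2)`. -/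
def ConjectureFor (f g : ℕ) : Prop :=
  ∀ x y z : ℕ, 0 < x → 0 < y → 0 < z →
    (f ^ 2 + g ^ 2) ^ x + (2 * f * g) ^ y = (f ^ 2 - g ^ 2) ^ z →
      f = g + 1 ∧ x = 1 ∧ y = 1 ∧ z = 2

open Pool.Agent.Helper53_Miya in
/-- Among the admissible pairs `(f, g)` with `f ≤ N`, the proportion of those for which the
conjecture holds tends to `1` as `N → ∞`. -/
theorem result :
    Tendsto (fun N : ℕ =>
      (Set.ncard {q : ℕ × ℕ | Admissible q.1 q.2 ∧ q.1 ≤ N ∧ ConjectureFor q.1 q.2} : ℝ) /
        Set.ncard {q : ℕ × ℕ | Admissible q.1 q.2 ∧ q.1 ≤ N}) atTop (𝓝 1) := by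
  classical
  -- the admissible pairs as a finset
  have hall : ∀ N : ℕ, {q : ℕ × ℕ | Admissible q.1 q.2 ∧ q.1 ≤ N} = (pairs N : Set (ℕ × ℕ)) := by
    intro N
    ext q
    rw [Finset.mem_coe, mem_pairs, Set.mem_ofPred_eq]
    unfold Admissible
    constructor
    · rintro ⟨⟨h1, h2, h3, h4⟩, h5⟩; exact ⟨h1, h2, h5, h3, h4⟩
    · rintro ⟨h1, h2, h5, h3, h4⟩; exact ⟨⟨h1, h2, h3, h4⟩, h5⟩
  have hgood : ∀ N : ℕ, {q : ℕ × ℕ | Admissible q.1 q.2 ∧ q.1 ≤ N ∧ ConjectureFor q.1 q.2}
      = (((pairs N).filter (fun q => ConjectureFor q.1 q.2) : Finset (ℕ × ℕ)) : Set (ℕ × ℕ)) := by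
    intro N
    ext q
    rw [Finset.mem_coe, Finset.mem_filter, mem_pairs, Set.mem_ofPred_eq]
    unfold Admissible
    constructor
    · rintro ⟨⟨h1, h2, h3, h4⟩, h5, h6⟩; exact ⟨⟨h1, h2, h5, h3, h4⟩, h6⟩
    · rintro ⟨⟨h1, h2, h5, h3, h4⟩, h6⟩; exact ⟨⟨h1, h2, h3, h4⟩, h5, h6⟩
  simp only [hall, hgood, Set.ncard_coe_finset]
  -- the exceptional pairs
  have hbad : ∀ N : ℕ, ((pairs N).filter (fun q => ¬ ConjectureFor q.1 q.2)).card
      ≤ (E 8 7 (N + 1)).card * (N + 1) := by
    intro N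
    rw [← Finset.card_range (N + 1), ← Finset.card_product, Finset.card_range]
    apply Finset.card_le_card_of_injOn (fun q : ℕ × ℕ => (q.1 - q.2, q.1))
    · rintro ⟨f, g⟩ hq
      simp only [Finset.coe_filter, mem_pairs, Set.mem_ofPred_eq] at hq
      obtain ⟨⟨h1, h2, h3, h4, h5⟩, h6⟩ := hq
      simp only [Finset.coe_product, Set.mem_prod, Finset.mem_coe, E, Finset.mem_filter,
        Finset.mem_range]
      refine ⟨⟨by omega, by omega, ?_⟩, by omega⟩
      intro p hp hp7 hdvd
      apply h6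
      intro x y z hx hy hz heq
      exact absurd heq (no_sol h2 h4 hp (by omega) hdvd hx hy hz)
    · rintro ⟨f, g⟩ hq ⟨f', g'⟩ hq' heq
      simp only [Finset.coe_filter, mem_pairs, Set.mem_ofPred_eq] at hq hq'
      simp only [Prod.mk.injEq] at heq ⊢
      omega
  -- the proportion of exceptional pairs tends to zero
  have hlim : Tendsto (fun N : ℕ =>
      (((pairs N).filter (fun q => ¬ ConjectureFor q.1 q.2)).card : ℝ) / (pairs N).card) atTop
      (𝓝 0) := by
    rw [Metric.tendsto_atTop]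
    intro ε hε
    have h1 := density_zero (q := 8) (a := 7) (by norm_num) (by norm_num) (ε := ε / 64)
      (by positivity)
    rw [eventually_atTop] at h1
    obtain ⟨n0, hn0⟩ := h1
    refine ⟨max n0 4, fun N hN => ?_⟩
    have hN0 : n0 ≤ N := (le_max_left _ _).trans hN
    have hN4 : 4 ≤ N := (le_max_right _ _).trans hN
    have hN4' : (4 : ℝ) ≤ N := by exact_mod_cast hN4
    have h2 := hn0 (N + 1) (by omega)
    have h3 := card_pairs N
    have h4 : (((pairs N).filter (fun q => ¬ ConjectureFor q.1 q.2)).card : ℝ)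
        ≤ (E 8 7 (N + 1)).card * (N + 1) := by exact_mod_cast hbad N
    have hpos : (N : ℝ) ^ 2 / 8 ≤ (pairs N).card := by nlinarith
    have hpos' : (0 : ℝ) < (pairs N).card := lt_of_lt_of_le (by positivity) hpos
    rw [Real.dist_eq, sub_zero, abs_of_nonneg (by positivity), div_lt_iff₀ hpos']
    push_cast at h2
    have h5 : ((E 8 7 (N + 1)).card : ℝ) * (N + 1) ≤ ε / 64 * (N + 1) * (N + 1) :=
      mul_le_mul_of_nonneg_right h2 (by positivity)
    have h6 : ε / 64 * ((N : ℝ) + 1) * (N + 1) ≤ ε / 64 * (4 * (N : ℝ) ^ 2) := by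
      have : ((N : ℝ) + 1) * (N + 1) ≤ 4 * (N : ℝ) ^ 2 := by nlinarith
      calc ε / 64 * ((N : ℝ) + 1) * (N + 1) = ε / 64 * (((N : ℝ) + 1) * (N + 1)) := by ring
        _ ≤ ε / 64 * (4 * (N : ℝ) ^ 2) := by gcongr
    have h7 : ε * ((N : ℝ) ^ 2 / 8) ≤ ε * (pairs N).card := by gcongr
    have h8 : 0 < ε * (N : ℝ) ^ 2 := by positivity
    linarith
  have hsum : ∀ N : ℕ, 4 ≤ N →
      1 - (((pairs N).filter (fun q => ¬ ConjectureFor q.1 q.2)).card : ℝ) / (pairs N).card
      = (((pairs N).filter (fun q => ConjectureFor q.1 q.2)).card : ℝ) / (pairs N).card := by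
    intro N hN
    have h3 := card_pairs N
    have hN4' : (4 : ℝ) ≤ N := by exact_mod_cast hN
    have hpos : (0 : ℝ) < (pairs N).card := by nlinarith
    have := Finset.card_filter_add_card_filter_not (s := pairs N) (fun q => ConjectureFor q.1 q.2)
    have h2 : (((pairs N).filter (fun q => ConjectureFor q.1 q.2)).card : ℝ)
      + ((pairs N).filter (fun q => ¬ ConjectureFor q.1 q.2)).card = (pairs N).card := by
      exact_mod_cast this
    rw [eq_div_iff hpos.ne', sub_mul, div_mul_cancel₀ _ hpos.ne']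
    linarith
  have := hlim.const_sub 1
  rw [sub_zero] at this
  exact this.congr' (by
    filter_upwards [eventually_ge_atTop 4] with N hN
    exact hsum N hN)

end Pool.Agent.Results.MP_d2d93c_nt.AlmostAll
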